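import Pool.Agent.H2.EA.Stm

set_option autoImplicit false

open Finset Module

namespace H2.EA

theorem Dat.finiteA {p : ℕ} [Fact p.Prime] {G A : Type} [Group G] [Finite G] [AddCommGroup A]
    [Module (ZMod p) A] (D : Dat p G A) : Finite A := Finite.of_injective D.ι D.ι_inj

theorem Dat.bsq_pos {p : ℕ} [Fact p.Prime] {G A : Type} [Group G] [Finite G] [AddCommGroup A]
    [Module (ZMod p) A] (D : Dat p G A) (v : A →ₗ[ZMod p] ZMod p) : 0 < D.bsq v := by
  unfold Dat.bsq Dat.bsqK
  refine Nat.mul_pos (pow_pos (Nat.pos_of_ne_zero ?_) 2) (Nat.pos_of_ne_zero ?_)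
  · exact Subgroup.index_ne_zero_of_finite
  · exact Subgroup.index_ne_zero_of_finite

theorem t_CORE (hstep : S_STEP) (hfl1 : S_FL1) (hfl2 : S_FL2) : S_CORE := by
  intro p _ G A _ _ _ _ D hG e he v0 hv0 z hz
  have : Finite A := D.finiteA
  have : FiniteDimensional (ZMod p) A := Module.Finite.of_finite
  rcases Nat.eq_zero_or_pos e with rfl | he0
  · have h1 : ¬ ∀ φ : Module.Dual (ZMod p) A, φ z = 0 := fun h =>
      hz ((Module.forall_dual_apply_eq_zero_iff (ZMod p) z).mp h)
    push Not at h1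
    obtain ⟨v, hv⟩ := h1
    refine ⟨v, hv, ?_⟩
    rw [mul_zero, pow_zero]
    exact D.bsq_pos v
  · let b : Basis (Fin (finrank (ZMod p) A)) (ZMod p) A := Module.finBasis (ZMod p) A
    have main : ∀ (N : ℕ) (K : Subgroup G) (gd : GD D b K), Nat.card K = N → gd.m ≤ e - 1 →
        ∃ v : A →ₗ[ZMod p] ZMod p, v z ≠ 0 ∧ p ^ (2 * e) ≤ D.bsq v := by
      intro N
      induction N using Nat.strong_induction_on with
      | _ N ih =>
        intro K gd hN hm
        by_cases hR : RankLe D b gd.g K (e - 1)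
        · rcases hstep p G A D hG _ b K gd (e - 1) (by omega) hR with h | ⟨K', hK', gd', hgd'⟩
          · exact hfl2 p G A D hG _ b K gd e he0 he hR h v0 hv0 z hz
          · refine ih (Nat.card K') ?_ K' gd' rfl hgd'
            rw [← hN]
            exact Set.ncard_lt_ncard hK' (Set.toFinite _)
        · exact hfl1 p G A D hG _ b K gd e he0 he (by omega) hR z hz
    refine main _ ⊤ ⟨0, Fin.elim0, 0, Fin.elim0, fun x => Subgroup.mem_top _, by simp,
      fun j => j.elim0, fun y _ _ => Subsingleton.elim _ _, fun c _ => Subsingleton.elim _ _,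
      fun v _ => le_top, fun v _ c _ => Subsingleton.elim _ _⟩ rfl (Nat.zero_le _)

end H2.EA
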