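import Mathlib

/-!
# EA: p-groups with elementary abelian commutator subgroup (MP_895f30)

Everything is written additively on `A` (an elementary abelian normal subgroup of `G` that contains
all commutators).  `N g = act g - 1`, `lg g = log (act g)` truncated at `p - 1`,
`lq g = log (act g) / (act g - 1)`.
-/

set_option autoImplicit false

open Finset

namespace H2.EA

section tlog
variable (p : ℕ) [Fact p.Prime] {R : Type*} [Ring R] [Algebra (ZMod p) R]

/-- `tl p x = ∑_{i=1}^{p-1} (-1)^(i+1) x^i / i`, the truncated logarithm of `1 + x`. -/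
noncomputable def tl (x : R) : R :=
  ∑ i ∈ Finset.range (p - 1), ((-1 : ZMod p) ^ i * ((i + 1 : ℕ) : ZMod p)⁻¹) • x ^ (i + 1)

/-- `tq p x = ∑_{i=1}^{p-1} (-1)^(i+1) x^(i-1) / i`, so that `tl p x = x * tq p x`. -/
noncomputable def tq (x : R) : R :=
  ∑ i ∈ Finset.range (p - 1), ((-1 : ZMod p) ^ i * ((i + 1 : ℕ) : ZMod p)⁻¹) • x ^ i

theorem tl_eq (x : R) : tl p x = x * tq p x := by
  unfold tl tq
  rw [Finset.mul_sum]
  refine Finset.sum_congr rfl fun i _ => ?_
  rw [mul_smul_comm, pow_succ']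

theorem tl_eq' (x : R) : tl p x = tq p x * x := by
  unfold tl tq
  rw [Finset.sum_mul]
  refine Finset.sum_congr rfl fun i _ => ?_
  rw [smul_mul_assoc, pow_succ]

end tlog

variable {p : ℕ} [Fact p.Prime]

/-- `A` (written additively, a vector space over `ZMod p`) is, through `ι`, an elementary abelian
normal subgroup of `G` containing all commutators; `act` is conjugation and `c` the commutator. -/
structure Dat (p : ℕ) [Fact p.Prime] (G A : Type) [Group G] [AddCommGroup A] [Module (ZMod p) A] where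
  act : G →* Module.End (ZMod p) A
  ι : A → G
  ι_add : ∀ a b, ι (a + b) = ι a * ι b
  ι_inj : Function.Injective ι
  ι_act : ∀ g a, ι (act g a) = g * ι a * g⁻¹
  c : G → G → A
  ι_c : ∀ g h, ι (c g h) = g * h * g⁻¹ * h⁻¹

namespace Dat

variable {G A : Type} [Group G] [AddCommGroup A] [Module (ZMod p) A] (D : Dat p G A)

@[simp] theorem ι_zero : D.ι 0 = 1 := by
  have h := D.ι_add 0 0
  rw [add_zero] at h
  exact (mul_eq_left.mp h.symm)

theorem ι_neg (a : A) : D.ι (-a) = (D.ι a)⁻¹ := by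
  have h := D.ι_add (-a) a
  rw [neg_add_cancel, ι_zero] at h
  exact eq_inv_of_mul_eq_one_left h.symm

theorem ι_sub (a b : A) : D.ι (a - b) = D.ι a * (D.ι b)⁻¹ := by
  rw [sub_eq_add_neg, D.ι_add, D.ι_neg]

theorem ι_comm (a b : A) : D.ι a * D.ι b = D.ι b * D.ι a := by
  rw [← D.ι_add, ← D.ι_add, add_comm]

theorem act_ι (a : A) : D.act (D.ι a) = 1 := by
  ext b
  apply D.ι_inj
  rw [D.ι_act, D.ι_comm, mul_inv_cancel_right]
  rfl

theorem act_comm (g h : G) : D.act g * D.act h = D.act h * D.act g := by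
  have h1 : g * h = D.ι (D.c g h) * (h * g) := by
    rw [D.ι_c]; group
  rw [← map_mul, ← map_mul, h1, map_mul, D.act_ι, one_mul]

theorem act_commute (g h : G) : Commute (D.act g) (D.act h) := D.act_comm g h

/-- `[g g', h] = [g, h] + g • [g', h]` -/
theorem c_mul_left (g g' h : G) : D.c (g * g') h = D.c g h + D.act g (D.c g' h) := by
  apply D.ι_inj
  rw [add_comm, D.ι_add, D.ι_act, D.ι_c, D.ι_c, D.ι_c]
  group

/-- `[g, h h'] = [g, h] + h • [g, h']` -/
theorem c_mul_right (g h h' : G) : D.c g (h * h') = D.c g h + D.act h (D.c g h') := by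
  apply D.ι_inj
  rw [D.ι_add, D.ι_act, D.ι_c, D.ι_c, D.ι_c]
  group

theorem c_swap (g h : G) : D.c h g = - D.c g h := by
  apply D.ι_inj
  rw [D.ι_neg, D.ι_c, D.ι_c]
  group

@[simp] theorem c_self (g : G) : D.c g g = 0 := by
  apply D.ι_inj
  rw [D.ι_c, D.ι_zero]
  group

/-- `[a, h] = a - h • a` -/
theorem c_ι_left (a : A) (h : G) : D.c (D.ι a) h = a - D.act h a := by
  apply D.ι_inj
  rw [D.ι_c, D.ι_sub, D.ι_act]
  group

/-- `[g, a] = g • a - a` -/
theorem c_ι_right (g : G) (a : A) : D.c g (D.ι a) = D.act g a - a := by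
  apply D.ι_inj
  rw [D.ι_c, D.ι_sub, D.ι_act]

theorem c_one_left (h : G) : D.c 1 h = 0 := by
  apply D.ι_inj; rw [D.ι_c, D.ι_zero]; group

theorem c_one_right (g : G) : D.c g 1 = 0 := by
  apply D.ι_inj; rw [D.ι_c, D.ι_zero]; group

/-- `N g = act g - 1` -/
noncomputable def N (g : G) : Module.End (ZMod p) A := D.act g - 1

/-- truncated logarithm of `act g` -/
noncomputable def lg (g : G) : Module.End (ZMod p) A := tl p (D.N g)

/-- truncated `log (act g) / (act g - 1)` -/
noncomputable def lq (g : G) : Module.End (ZMod p) A := tq p (D.N g)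

theorem lg_eq (g : G) : D.lg g = D.N g * D.lq g := tl_eq p _

theorem lg_eq' (g : G) : D.lg g = D.lq g * D.N g := tl_eq' p _

theorem N_commute (g h : G) : Commute (D.N g) (D.N h) := by
  unfold N
  exact ((D.act_commute g h).sub_left (Commute.one_left _)).sub_right
    ((Commute.one_right _))

/-- `D.Z K n`: the elements of `A` killed by all products of `n` operators `N k`, `k ∈ K`. -/
noncomputable def Z (K : Subgroup G) : ℕ → Submodule (ZMod p) A
  | 0 => ⊥
  | n + 1 => ⨅ k : K, (Z K n).comap (D.N k)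

theorem mem_Z_succ {K : Subgroup G} {n : ℕ} {a : A} :
    a ∈ D.Z K (n + 1) ↔ ∀ k ∈ K, D.N k a ∈ D.Z K n := by
  simp [Z, Submodule.mem_iInf]

theorem mem_Z_zero {K : Subgroup G} {a : A} : a ∈ D.Z K 0 ↔ a = 0 := by
  simp [Z]

/-- inertia group of the functional `v` -/
def stab (v : A →ₗ[ZMod p] ZMod p) : Subgroup G where
  carrier := {g | ∀ a, v (D.act g a) = v a}
  mul_mem' := by
    intro g h hg hh a
    simp only [Set.mem_setOf_eq] at *
    rw [map_mul]
    exact (hg _).trans (hh a)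
  one_mem' := by intro a; simp
  inv_mem' := by
    intro g hg a
    simp only [Set.mem_setOf_eq] at *
    have h := hg (D.act g⁻¹ a)
    rw [← h, ← Module.End.mul_apply, ← map_mul, mul_inv_cancel, map_one]
    rfl

theorem mem_stab {v : A →ₗ[ZMod p] ZMod p} {g : G} :
    g ∈ D.stab v ↔ ∀ a, v (D.act g a) = v a := Iff.rfl

/-- the inertia group in `K` -/
def stabK (K : Subgroup G) (v : A →ₗ[ZMod p] ZMod p) : Subgroup G := D.stab v ⊓ K

/-- the radical of the commutator form `v (c g h)` on `stabK K v` -/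
def radK (K : Subgroup G) (v : A →ₗ[ZMod p] ZMod p) : Subgroup G where
  carrier := {g | g ∈ D.stabK K v ∧ ∀ h ∈ D.stabK K v, v (D.c g h) = 0}
  mul_mem' := by
    rintro g h ⟨hg, hg'⟩ ⟨hh, hh'⟩
    refine ⟨mul_mem hg hh, fun x hx => ?_⟩
    rw [D.c_mul_left, map_add, hg' x hx, (D.mem_stab.mp hg.1) _, hh' x hx, add_zero]
  one_mem' := ⟨one_mem _, fun x _ => by rw [D.c_one_left, map_zero]⟩
  inv_mem' := by
    rintro g ⟨hg, hg'⟩
    refine ⟨inv_mem hg, fun x hx => ?_⟩
    have h := D.c_mul_left g g⁻¹ x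
    rw [mul_inv_cancel, D.c_one_left] at h
    have h2 := congrArg v h
    rw [map_zero, map_add, hg' x hx, (D.mem_stab.mp hg.1) _, zero_add] at h2
    exact h2.symm

/-- `[K : K_v]^2 * [K_v : Rad_v]`, the square of the degree over `v` -/
noncomputable def bsqK (K : Subgroup G) (v : A →ₗ[ZMod p] ZMod p) : ℕ :=
  (D.stabK K v).relIndex K ^ 2 * (D.radK K v).relIndex (D.stabK K v)

noncomputable def bsq (v : A →ₗ[ZMod p] ZMod p) : ℕ := D.bsqK ⊤ v

end Dat

/-- field of rational functions in `d` variables -/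
abbrev Fr (p : ℕ) [Fact p.Prime] (d : ℕ) := FractionRing (MvPolynomial (Fin d) (ZMod p))

section generic
variable {A : Type} [AddCommGroup A] [Module (ZMod p) A] {d : ℕ}

/-- the generic functional `∑ X_i b_i^*` with polynomial values -/
noncomputable def genP (b : Module.Basis (Fin d) (ZMod p) A) : A →ₗ[ZMod p] MvPolynomial (Fin d) (ZMod p) :=
  b.constr (ZMod p) (fun i => MvPolynomial.X i)

/-- the generic functional with values in the field `Fr p d` -/
noncomputable def genF (b : Module.Basis (Fin d) (ZMod p) A) : A →ₗ[ZMod p] Fr p d :=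
  (Algebra.linearMap (MvPolynomial (Fin d) (ZMod p)) (Fr p d)).restrictScalars (ZMod p) ∘ₗ genP b

theorem genF_apply (b : Module.Basis (Fin d) (ZMod p) A) (a : A) :
    genF b a = algebraMap (MvPolynomial (Fin d) (ZMod p)) (Fr p d) (genP b a) := rfl

end generic

section cert
variable {G A : Type} [Group G] [AddCommGroup A] [Module (ZMod p) A] (D : Dat p G A)
variable {E : Type} [Field E] [Algebra (ZMod p) E]

/-- the columns `φ j` are linearly independent at `v` on the rows `g i` and all rows `k ∈ K` -/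
def colInd (v : A →ₗ[ZMod p] E) {a : ℕ} (g : Fin a → G) (K : Subgroup G) {m : ℕ} (φ : Fin m → A) :
    Prop :=
  ∀ y : Fin m → E, (∀ i, ∑ j, y j * v (D.lg (g i) (φ j)) = 0) →
    (∀ k ∈ K, ∑ j, y j * v (D.lg k (φ j)) = 0) → y = 0

/-- the row of `x` on the columns `φ` -/
noncomputable def row (v : A →ₗ[ZMod p] E) {m : ℕ} (φ : Fin m → A) (x : G) : Fin m → E :=
  fun j => v (D.lg x (φ j))

/-- the rows `g i` are linearly independent at `v` modulo the span of the rows of `K` -/
def rowMod (v : A →ₗ[ZMod p] E) {a : ℕ} (g : Fin a → G) (K : Subgroup G) {m : ℕ} (φ : Fin m → A) :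
    Prop :=
  ∀ c : Fin a → E,
    (∑ i, c i • row D v φ (g i)) ∈ Submodule.span E (row D v φ '' (K : Set G)) → c = 0

/-- certificate that generic inertia groups lie in `K` -/
structure GD {d : ℕ} (b : Module.Basis (Fin d) (ZMod p) A) (K : Subgroup G) where
  a : ℕ
  g : Fin a → G
  m : ℕ
  φ : Fin m → A
  hA : ∀ x, D.ι x ∈ K
  hindex : K.index = p ^ a
  hφ : ∀ j, φ j ∈ D.Z K p
  hgen : colInd D (genF b) g K φ
  hrow : rowMod D (genF b) g K φ
  hstab : ∀ v : A →ₗ[ZMod p] ZMod p, colInd D v g K φ → D.stab v ≤ K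
  hrowv : ∀ v : A →ₗ[ZMod p] ZMod p, colInd D v g K φ → rowMod D v g K φ

/-- the generic column rank on `Z K p` is at most `r` -/
def RankLe {d : ℕ} (b : Module.Basis (Fin d) (ZMod p) A) {a : ℕ} (g : Fin a → G) (K : Subgroup G)
    (r : ℕ) : Prop :=
  ∀ (m : ℕ) (φ : Fin m → A), (∀ j, φ j ∈ D.Z K p) → colInd D (genF b) g K φ → m ≤ r

/-- coordinates on `K / K^p A` -/
structure Coord (K : Subgroup G) (n : ℕ) where
  k : Fin n → G
  hk : ∀ i, k i ∈ K
  α : G → Fin n → ZMod p
  α_mul : ∀ x ∈ K, ∀ y ∈ K, α (x * y) = α x + α y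
  α_k : ∀ i, α (k i) = Pi.single i 1
  α_ι : ∀ a, α (D.ι a) = 0
  ker : ∀ x ∈ K, α x = 0 → ∃ y ∈ K, ∃ a, x = y ^ p * D.ι a

/-- structure constants of the commutator form -/
noncomputable def CC (D : Dat p G A) {K : Subgroup G} {n : ℕ} (co : Coord D K n) (i j : Fin n) : A :=
  (D.lq (co.k i) * D.lq (co.k j)) (D.c (co.k i) (co.k j))

/-- the alternating matrix on the index set `Fin n ⊕ Fin r` (rows of `K`, columns `ψ`):
`T (inl i) (inl j) = v (CC i j)`, `T (inl i) (inr l) = v (lg (k i) (ψ l))`. -/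
noncomputable def TT (v : A →ₗ[ZMod p] E) {K : Subgroup G} {n : ℕ} (co : Coord D K n) {r : ℕ}
    (ψ : Fin r → A) : Matrix (Fin n ⊕ Fin r) (Fin n ⊕ Fin r) E :=
  Matrix.fromBlocks (fun i j => v (CC D co i j)) (fun i l => v (D.lg (co.k i) (ψ l)))
    (fun l i => - v (D.lg (co.k i) (ψ l))) 0

end cert

end H2.EA
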