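import Pool.Agent.H2.EA.Stm

set_option autoImplicit false

open Finset Module

namespace H2.EA

section gen
variable {p : ℕ} [Fact p.Prime] {G A : Type} [Group G] [AddCommGroup A] [Module (ZMod p) A]
  (D : Dat p G A)

theorem lg_ι (a : A) : D.lg (D.ι a) = 0 := by
  unfold Dat.lg Dat.N
  rw [D.act_ι, sub_self]
  unfold tl
  simp

theorem addOn_one {M : Type} [AddCommGroup M] (K : Subgroup G) (f : G → M)
    (hf : ∀ x ∈ K, ∀ y ∈ K, f (x * y) = f x + f y) : f 1 = 0 := by
  have h := hf 1 (one_mem _) 1 (one_mem _)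
  rw [mul_one] at h
  exact left_eq_add.mp h

theorem addOn_pow {M : Type} [AddCommGroup M] (K : Subgroup G) (f : G → M)
    (hf : ∀ x ∈ K, ∀ y ∈ K, f (x * y) = f x + f y) (h : G) (hh : h ∈ K) (n : ℕ) :
    f (h ^ n) = n • f h := by
  induction n with
  | zero => rw [pow_zero, addOn_one K f hf, zero_smul]
  | succ n ih => rw [pow_succ, hf _ (pow_mem hh n) _ hh, ih, succ_nsmul]

/-- decomposition along a hyperplane -/
theorem addOn_decomp (K : Subgroup G) (μ : G → ZMod p)
    (hμ : ∀ x ∈ K, ∀ y ∈ K, μ (x * y) = μ x + μ y) (h : G) (hh : h ∈ K) (hμh : μ h ≠ 0)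
    (x : G) (hx : x ∈ K) : ∃ (c : ℕ) (x' : G), x' ∈ K ∧ μ x' = 0 ∧ x = h ^ c * x' := by
  refine ⟨(μ x * (μ h)⁻¹).val, (h ^ (μ x * (μ h)⁻¹).val)⁻¹ * x,
    mul_mem (inv_mem (pow_mem hh _)) hx, ?_, by group⟩
  have h1 := hμ (h ^ (μ x * (μ h)⁻¹).val) (pow_mem hh _) ((h ^ (μ x * (μ h)⁻¹).val)⁻¹ * x)
    (mul_mem (inv_mem (pow_mem hh _)) hx)
  rw [mul_inv_cancel_left, addOn_pow K μ hμ h hh, nsmul_eq_mul, ZMod.natCast_val, ZMod.cast_id',
    id, mul_assoc, inv_mul_cancel₀ hμh, mul_one] at h1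
  exact (left_eq_add.mp h1)

theorem addOn_vanish {M : Type} [AddCommGroup M] (K : Subgroup G) (μ : G → ZMod p)
    (hμ : ∀ x ∈ K, ∀ y ∈ K, μ (x * y) = μ x + μ y) (h : G) (hh : h ∈ K) (hμh : μ h ≠ 0)
    (f : G → M) (hf : ∀ x ∈ K, ∀ y ∈ K, f (x * y) = f x + f y) (hfh : f h = 0)
    (hfK : ∀ x ∈ K, μ x = 0 → f x = 0) : ∀ x ∈ K, f x = 0 := by
  intro x hx
  obtain ⟨c, x', hx', hμx', rfl⟩ := addOn_decomp K μ hμ h hh hμh x hx
  rw [hf _ (pow_mem hh _) _ hx', addOn_pow K f hf h hh, hfh, smul_zero, hfK x' hx' hμx', add_zero]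

theorem rowMod_snoc {E : Type} [Field E] [Algebra (ZMod p) E] (v : A →ₗ[ZMod p] E) {a : ℕ}
    (g : Fin a → G) (K K' : Subgroup G) (hK' : K' ≤ K) {m R n : ℕ} (φ : Fin m → A)
    (θ : Fin R → A) (h : m ≤ R) (hθφ : ∀ j, θ (Fin.castLE h j) = φ j) (co : Coord D K n)
    (lam : Fin n → ZMod p) (hlamK' : ∀ x ∈ K', ∑ i, lam i * co.α x i = 0) (h0 : G) (hh0 : h0 ∈ K)
    (hlamh : ∑ i, lam i * co.α h0 i ≠ 0)
    (hexp : ∀ x ∈ K, ∀ j, v (D.lg x (θ j)) = ∑ i, co.α x i • v (D.lg (co.k i) (θ j)))
    (hrow : rowMod D v g K φ)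
    (hker : ∀ (s1 : Fin a → E) (s2 : Fin n → E),
      (∀ j, ∑ i, s1 i * v (D.lg (g i) (θ j)) + ∑ i, s2 i * v (D.lg (co.k i) (θ j)) = 0) →
      ∑ i, algebraMap (ZMod p) E (lam i) * s2 i = 0) :
    rowMod D v (Fin.snoc g h0 : Fin (a + 1) → G) K' θ := by
  intro c hc
  -- the submodule of combinations
  let S : Submodule E (Fin R → E) :=
    { carrier := {w | ∃ s : Fin n → E, w = ∑ i, s i • row D v θ (co.k i) ∧
        ∑ i, algebraMap (ZMod p) E (lam i) * s i = 0}
      add_mem' := by
        rintro w w' ⟨s, hs, hs'⟩ ⟨t, ht, ht'⟩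
        refine ⟨s + t, ?_, ?_⟩
        · rw [hs, ht, ← Finset.sum_add_distrib]
          exact Finset.sum_congr rfl fun i _ => by rw [Pi.add_apply, add_smul]
        · simp only [Pi.add_apply, mul_add, Finset.sum_add_distrib]
          rw [hs', ht', add_zero]
      zero_mem' := ⟨0, by simp, by simp⟩
      smul_mem' := by
        rintro e w ⟨s, hs, hs'⟩
        refine ⟨e • s, ?_, ?_⟩
        · rw [hs, Finset.smul_sum]
          exact Finset.sum_congr rfl fun i _ => by rw [Pi.smul_apply, smul_eq_mul, mul_smul]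
        · simp only [Pi.smul_apply, smul_eq_mul, mul_left_comm _ e, ← Finset.mul_sum]
          rw [hs', mul_zero] }
  have hrowx : ∀ x ∈ K, row D v θ x = ∑ i, algebraMap (ZMod p) E (co.α x i) • row D v θ (co.k i) := by
    intro x hx
    funext j
    rw [Finset.sum_apply]
    unfold row
    rw [hexp x hx j]
    refine Finset.sum_congr rfl fun i _ => ?_
    rw [Pi.smul_apply, smul_eq_mul, Algebra.smul_def]
  have hS : Submodule.span E (row D v θ '' (K' : Set G)) ≤ S := by
    rw [Submodule.span_le]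
    rintro _ ⟨x, hx, rfl⟩
    refine ⟨fun i => algebraMap (ZMod p) E (co.α x i), hrowx x (hK' hx), ?_⟩
    simp only [← map_mul, ← map_sum]
    rw [hlamK' x hx, map_zero]
  obtain ⟨s, hs, hs'⟩ := hS hc
  rw [Fin.sum_univ_castSucc] at hs
  simp only [Fin.snoc_castSucc, Fin.snoc_last] at hs
  rw [hrowx h0 hh0] at hs
  have hrel : ∀ j, ∑ i, (fun i : Fin a => c i.castSucc) i * v (D.lg (g i) (θ j)) +
      ∑ i, (fun i => c (Fin.last a) * algebraMap (ZMod p) E (co.α h0 i) - s i) i *
        v (D.lg (co.k i) (θ j)) = 0 := by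
    intro j
    have h1 := congrFun hs j
    simp only [Pi.add_apply, Finset.sum_apply, Pi.smul_apply, smul_eq_mul] at h1
    unfold row at h1
    simp only [sub_mul, Finset.sum_sub_distrib]
    rw [← h1, Finset.mul_sum]
    simp only [mul_assoc]
    ring
  have h1 := hker _ _ hrel
  have h2 : c (Fin.last a) * algebraMap (ZMod p) E (∑ i, lam i * co.α h0 i) = 0 := by
    rw [← h1]
    simp only [mul_sub, Finset.sum_sub_distrib, hs', sub_zero, map_sum, map_mul, Finset.mul_sum]
    refine Finset.sum_congr rfl fun i _ => by ring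
  have h3 : c (Fin.last a) = 0 := by
    rcases mul_eq_zero.mp h2 with h | h
    · exact h
    · exact absurd ((map_eq_zero _).mp h) hlamh
  have h4 : (fun i : Fin a => c i.castSucc) = 0 := by
    apply hrow
    have h5 : (∑ i : Fin a, c i.castSucc • row D v φ (g i)) =
        ∑ i, (-(c (Fin.last a) * algebraMap (ZMod p) E (co.α h0 i) - s i)) • row D v φ (co.k i) := by
      funext j
      simp only [Finset.sum_apply, Pi.smul_apply, smul_eq_mul]
      unfold row
      rw [← hθφ j]
      have := hrel (Fin.castLE h j)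
      rw [add_eq_zero_iff_eq_neg] at this
      simp only at this
      rw [this, ← Finset.sum_neg_distrib]
      exact Finset.sum_congr rfl fun i _ => by ring
    rw [h5]
    refine Submodule.sum_mem _ fun i _ => Submodule.smul_mem _ _ (Submodule.subset_span ?_)
    exact ⟨co.k i, co.hk i, rfl⟩
  funext i
  refine Fin.lastCases h3 (fun i => congrFun h4 i) i

end gen

theorem t_STEP (hZF : S_ZF) (hHOM : S_HOM) (hCOORD : S_COORD) (hEXT : S_EXT) (hCRA : S_CRA)
    (hRB : S_RB) : S_STEP := by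
  intro p _ G A _ _ _ _ D hG d b K gd r hr hR
  classical
  by_cases hZ : D.Z K (p - 1) = ⊤
  · exact Or.inl hZ
  right
  obtain ⟨n, ⟨co⟩⟩ := hCOORD p G A D K gd.hA
  obtain ⟨-, hZmono, -, -, -, hadd, hstabv⟩ := hZF p G A D
  obtain ⟨hhom, -⟩ := hHOM p G A D K n co gd.hA
  -- maximal R
  let P : ℕ → Prop := fun m => ∃ φ : Fin m → A, (∀ j, φ j ∈ D.Z K p) ∧ colInd D (genF b) gd.g K φ
  have hPm : P gd.m := ⟨gd.φ, gd.hφ, gd.hgen⟩
  have hPle : ∀ m, P m → m ≤ r := fun m ⟨φ, h1, h2⟩ => hR m φ h1 h2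
  obtain ⟨R, hPR, hmax⟩ : ∃ R, P R ∧ ∀ m, P m → m ≤ R :=
    ⟨Nat.findGreatest P r, Nat.findGreatest_spec (hPle _ hPm) hPm,
      fun m hm => Nat.le_findGreatest (hPle m hm) hm⟩
  have hRr : R ≤ r := hPle R hPR
  obtain ⟨ψ, hψ1, hψ2⟩ := hPR
  have hmR : gd.m ≤ R := hmax _ hPm
  obtain ⟨θ, hθφ, hθr, hθ⟩ := hEXT p G A D (Fr p d) (genF b) gd.a gd.g K gd.m R R gd.φ ψ
    gd.hgen hψ2 hmR le_rfl
  have hθZ : ∀ j, θ j ∈ D.Z K p := by
    intro j
    rcases hθr j with ⟨i, hi⟩ | ⟨i, hi⟩
    · rw [← hi]; exact gd.hφ i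
    · rw [← hi]; exact hψ1 i
  have hcomb : ∀ a ∈ D.Z K p, ∃ z : Fin R → Fr p d, ∀ x ∈ K,
      genF b (D.lg x a) = ∑ j, z j * genF b (D.lg x (θ j)) := by
    intro a ha
    have hnot : ¬ colInd D (genF b) gd.g K (Fin.snoc θ a : Fin (R + 1) → A) := by
      intro h
      have := hmax (R + 1) ⟨Fin.snoc θ a, fun j => by
        refine Fin.lastCases ?_ (fun i => ?_) j
        · simpa using ha
        · simpa using hθZ i, h⟩
      omega
    unfold colInd at hnot
    push Not at hnot
    obtain ⟨y, hy1, hy2, hy3⟩ := hnot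
    simp only [Fin.sum_univ_castSucc, Fin.snoc_castSucc, Fin.snoc_last] at hy1 hy2
    by_cases hl : y (Fin.last R) = 0
    · exfalso
      apply hy3
      have h0 : (fun j : Fin R => y j.castSucc) = 0 := hθ _
        (fun i => by have := hy1 i; rwa [hl, zero_mul, add_zero] at this)
        (fun k hk => by have := hy2 k hk; rwa [hl, zero_mul, add_zero] at this)
      funext j
      exact Fin.lastCases hl (fun i => congrFun h0 i) j
    · refine ⟨fun j => - (y j.castSucc * (y (Fin.last R))⁻¹), fun x hx => ?_⟩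
      have h1 := hy2 x hx
      rw [add_comm, add_eq_zero_iff_eq_neg] at h1
      have h2 : genF b (D.lg x a) = (y (Fin.last R))⁻¹ * (y (Fin.last R) * genF b (D.lg x a)) := by
        rw [← mul_assoc, inv_mul_cancel₀ hl, one_mul]
      rw [h2, h1, ← Finset.sum_neg_distrib, Finset.mul_sum]
      exact Finset.sum_congr rfl fun j _ => by ring
  by_cases hlam : ∀ lam : Fin n → ZMod p, lam ≠ 0 → ∃ s : Fin n → Fr p d,
      (∀ a ∈ D.Z K p, ∑ i, s i * genF b (D.lg (co.k i) a) = 0) ∧
      ∑ i, algebraMap (ZMod p) (Fr p d) (lam i) * s i ≠ 0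
  · exfalso
    obtain ⟨ψ', h1, h2⟩ := hRB p G A D hG d b K gd.hA hZ n co hlam
    have := hR (p - 1) ψ' h1 (fun y _ hy => h2 y hy)
    omega
  push Not at hlam
  obtain ⟨lam, hlam0, hlam⟩ := hlam
  -- the hyperplane
  let μ : G → ZMod p := fun x => ∑ i, lam i * co.α x i
  have hμ : ∀ x ∈ K, ∀ y ∈ K, μ (x * y) = μ x + μ y := by
    intro x hx y hy
    simp only [μ]
    rw [co.α_mul x hx y hy, ← Finset.sum_add_distrib]
    exact Finset.sum_congr rfl fun i _ => by rw [Pi.add_apply, mul_add]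
  obtain ⟨i0, hi0⟩ : ∃ i, lam i ≠ 0 := by
    by_contra hcon
    push Not at hcon
    exact hlam0 (funext hcon)
  have hμh : μ (co.k i0) ≠ 0 := by
    simp only [μ]
    rw [co.α_k, Finset.sum_eq_single i0]
    · simpa using hi0
    · intro j _ hj
      rw [Pi.single_eq_of_ne hj, mul_zero]
    · intro h; exact absurd (Finset.mem_univ _) h
  let K' : Subgroup G :=
    { carrier := {x | x ∈ K ∧ μ x = 0}
      mul_mem' := by
        rintro x y ⟨hx, hx'⟩ ⟨hy, hy'⟩
        exact ⟨mul_mem hx hy, by rw [hμ x hx y hy, hx', hy', add_zero]⟩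
      one_mem' := ⟨one_mem _, addOn_one K μ hμ⟩
      inv_mem' := by
        rintro x ⟨hx, hx'⟩
        refine ⟨inv_mem hx, ?_⟩
        have h1 := hμ x hx x⁻¹ (inv_mem hx)
        rw [mul_inv_cancel, addOn_one K μ hμ, hx', zero_add] at h1
        exact h1.symm }
  have hK'K : K' ≤ K := fun x hx => hx.1
  have hK'lt : K' < K := by
    refine lt_of_le_not_ge hK'K fun h => ?_
    have h1 : co.k i0 ∈ K' := h (co.hk i0)
    exact hμh h1.2
  -- expansions
  have hexp : ∀ {E : Type} [Field E] [Algebra (ZMod p) E] (v : A →ₗ[ZMod p] E), ∀ x ∈ K,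
      ∀ a ∈ D.Z K p, v (D.lg x a) = ∑ i, co.α x i • v (D.lg (co.k i) a) := by
    intro E _ _ v x hx a ha
    refine hhom E (fun x => v (D.lg x a)) ?_ ?_ x hx
    · intro x hx y hy
      rw [hadd K x hx y hy a ha, map_add]
    · intro a'
      rw [lg_ι, LinearMap.zero_apply, map_zero]
  -- transfer of column independence
  have hcol1 : ∀ {E : Type} [Field E] [Algebra (ZMod p) E] (v : A →ₗ[ZMod p] E),
      colInd D v gd.g K θ →
      colInd D v (Fin.snoc gd.g (co.k i0) : Fin (gd.a + 1) → G) K' θ := by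
    intro E _ _ v hv y hy1 hy2
    refine hv y (fun i => ?_) ?_
    · have := hy1 i.castSucc
      simpa only [Fin.snoc_castSucc] using this
    · refine addOn_vanish K μ hμ (co.k i0) (co.hk i0) hμh
        (fun x => ∑ j, y j * v (D.lg x (θ j))) ?_ ?_ ?_
      · intro x hx z hz
        rw [← Finset.sum_add_distrib]
        exact Finset.sum_congr rfl fun j _ => by
          rw [hadd K x hx z hz _ (hθZ j), map_add, mul_add]
      · have := hy1 (Fin.last _)
        simpa only [Fin.snoc_last] using this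
      · intro x hx hx'
        exact hy2 x ⟨hx, hx'⟩
  have hcol2 : ∀ {E : Type} [Field E] [Algebra (ZMod p) E] (v : A →ₗ[ZMod p] E),
      colInd D v (Fin.snoc gd.g (co.k i0) : Fin (gd.a + 1) → G) K' θ → colInd D v gd.g K θ := by
    intro E _ _ v hv y hy1 hy2
    refine hv y (fun i => ?_) (fun k hk => hy2 k (hK'K hk))
    refine Fin.lastCases ?_ (fun i => ?_) i
    · simpa only [Fin.snoc_last] using hy2 _ (co.hk i0)
    · simpa only [Fin.snoc_castSucc] using hy1 i
  have hcol3 : ∀ {E : Type} [Field E] [Algebra (ZMod p) E] (v : A →ₗ[ZMod p] E),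
      colInd D v gd.g K θ → colInd D v gd.g K gd.φ := by
    intro E _ _ v hv y hy1 hy2
    -- extend y by zero
    let y' : Fin R → E := fun j => if hj : (j : ℕ) < gd.m then y ⟨j, hj⟩ else 0
    have hsum : ∀ x, ∑ j, y' j * v (D.lg x (θ j)) = ∑ j, y j * v (D.lg x (gd.φ j)) := by
      intro x
      have h1 : ∀ j : Fin gd.m, y j * v (D.lg x (gd.φ j)) =
          y' (Fin.castLE hmR j) * v (D.lg x (θ (Fin.castLE hmR j))) := by
        intro j
        rw [hθφ j]
        simp [y']
      rw [Finset.sum_congr rfl fun j _ => h1 j]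
      symm
      refine Finset.sum_of_injOn (Fin.castLE hmR) (fun _ _ _ _ h => Fin.castLE_injective hmR h)
        (fun _ _ => by simp) ?_ (fun _ _ => rfl)
      intro j _ hj
      have hj' : ¬ (j : ℕ) < gd.m := by
        intro hlt
        apply hj
        exact ⟨⟨j, hlt⟩, by simp, by ext; simp⟩
      simp [y', hj']
    have h0 := hv y' (fun i => by rw [hsum]; exact hy1 i) (fun k hk => by rw [hsum]; exact hy2 k hk)
    funext j
    have := congrFun h0 (Fin.castLE hmR j)
    simpa [y'] using this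
  -- the generic kernel condition
  have hkerξ : ∀ (s1 : Fin gd.a → Fr p d) (s2 : Fin n → Fr p d),
      (∀ j, ∑ i, s1 i * genF b (D.lg (gd.g i) (θ j)) +
        ∑ i, s2 i * genF b (D.lg (co.k i) (θ j)) = 0) →
      ∑ i, algebraMap (ZMod p) (Fr p d) (lam i) * s2 i = 0 := by
    intro s1 s2 hs
    have hs1 : s1 = 0 := by
      apply gd.hrow
      have h5 : (∑ i, s1 i • row D (genF b) gd.φ (gd.g i)) =
          ∑ i, (- s2 i) • row D (genF b) gd.φ (co.k i) := by
        funext j
        simp only [Finset.sum_apply, Pi.smul_apply, smul_eq_mul]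
        unfold row
        rw [← hθφ j]
        have := hs (Fin.castLE hmR j)
        rw [add_eq_zero_iff_eq_neg] at this
        rw [this, ← Finset.sum_neg_distrib]
        exact Finset.sum_congr rfl fun i _ => by ring
      rw [h5]
      refine Submodule.sum_mem _ fun i _ => Submodule.smul_mem _ _ (Submodule.subset_span ?_)
      exact ⟨co.k i, co.hk i, rfl⟩
    refine hlam s2 fun a ha => ?_
    obtain ⟨z, hz⟩ := hcomb a ha
    rw [Finset.sum_congr rfl fun i _ => by rw [hz _ (co.hk i)]]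
    simp only [Finset.mul_sum]
    rw [Finset.sum_comm]
    refine Finset.sum_eq_zero fun j _ => ?_
    have := hs j
    rw [hs1] at this
    simp only [Pi.zero_apply, zero_mul, Finset.sum_const_zero, zero_add] at this
    rw [Finset.sum_congr rfl fun i _ => by rw [mul_left_comm], ← Finset.mul_sum, this, mul_zero]
  -- specialisation
  have heval : ∀ (v : A →ₗ[ZMod p] ZMod p) (a : A),
      MvPolynomial.eval (fun l => v (b l)) (genP b a) = v a := by
    intro v a
    have h1 : ((MvPolynomial.aeval (fun l => v (b l)) :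
        MvPolynomial (Fin d) (ZMod p) →ₐ[ZMod p] ZMod p).toLinearMap ∘ₗ genP b) = v := by
      refine b.ext fun l => ?_
      unfold genP
      simp
    have h2 := LinearMap.congr_fun h1 a
    simpa [MvPolynomial.aeval_eq_eval] using h2
  have hkerv : ∀ (v : A →ₗ[ZMod p] ZMod p), colInd D v gd.g K θ →
      ∀ (s1 : Fin gd.a → ZMod p) (s2 : Fin n → ZMod p),
      (∀ j, ∑ i, s1 i * v (D.lg (gd.g i) (θ j)) + ∑ i, s2 i * v (D.lg (co.k i) (θ j)) = 0) →
      ∑ i, algebraMap (ZMod p) (ZMod p) (lam i) * s2 i = 0 := by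
    intro v hv s1 s2 hs
    let M : Matrix (Fin gd.a ⊕ Fin n) (Fin R) (MvPolynomial (Fin d) (ZMod p)) :=
      Matrix.of fun i j => Sum.elim (fun i => genP b (D.lg (gd.g i) (θ j)))
        (fun i => genP b (D.lg (co.k i) (θ j))) i
    have h1 := hCRA p d (Fin gd.a ⊕ Fin n) R M (Sum.elim 0 lam) ?_ (fun l => v (b l)) ?_
      (Sum.elim s1 s2) ?_
    · simpa using h1
    · intro s hs'
      have h2 := hkerξ (fun i => s (Sum.inl i)) (fun i => s (Sum.inr i)) (fun j => by
        have := hs' j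
        rw [Fintype.sum_sum_type] at this
        simpa only [M, Matrix.of_apply, Sum.elim_inl, Sum.elim_inr, genF_apply] using this)
      rw [Fintype.sum_sum_type]
      simpa using h2
    · intro y hy
      refine hv y (fun i => ?_) (fun k hk => ?_)
      · have := hy (Sum.inl i)
        simp only [M, Matrix.of_apply, Sum.elim_inl, heval] at this
        rw [← this]
        exact Finset.sum_congr rfl fun j _ => mul_comm _ _
      · have h3 : ∀ i, ∑ j, y j * v (D.lg (co.k i) (θ j)) = 0 := by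
          intro i
          have := hy (Sum.inr i)
          simp only [M, Matrix.of_apply, Sum.elim_inr, heval] at this
          rw [← this]
          exact Finset.sum_congr rfl fun j _ => mul_comm _ _
        rw [Finset.sum_congr rfl fun j _ => by rw [hexp v k hk (θ j) (hθZ j)]]
        simp only [Finset.mul_sum]
        rw [Finset.sum_comm]
        refine Finset.sum_eq_zero fun i _ => ?_
        rw [Finset.sum_congr rfl fun j _ => by rw [smul_eq_mul, mul_left_comm], ← Finset.mul_sum,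
          h3, mul_zero]
    · intro j
      rw [Fintype.sum_sum_type]
      simpa only [M, Matrix.of_apply, Sum.elim_inl, Sum.elim_inr, heval] using hs j
  -- index of K'
  have hrel : K'.relIndex K = p := by
    let f : K →* Multiplicative (ZMod p) :=
      { toFun := fun x => Multiplicative.ofAdd (μ x)
        map_one' := by
          have := addOn_one K μ hμ
          simp [this]
        map_mul' := fun x y => by
          rw [← ofAdd_add, Subgroup.coe_mul, hμ x x.2 y y.2] }
    have hker : K'.subgroupOf K = f.ker := by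
      ext x
      rw [Subgroup.mem_subgroupOf, MonoidHom.mem_ker]
      constructor
      · intro h
        exact congrArg Multiplicative.ofAdd h.2
      · intro h
        exact ⟨x.2, Multiplicative.ofAdd.injective h⟩
    have hsurj : Function.Surjective f := by
      intro y
      refine ⟨⟨co.k i0 ^ (y.toAdd * (μ (co.k i0))⁻¹).val, pow_mem (co.hk i0) _⟩, ?_⟩
      change Multiplicative.ofAdd (μ (co.k i0 ^ (y.toAdd * (μ (co.k i0))⁻¹).val)) = y
      rw [addOn_pow K μ hμ _ (co.hk i0), nsmul_eq_mul, ZMod.natCast_val, ZMod.cast_id', id,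
        mul_assoc, inv_mul_cancel₀ hμh, mul_one]
      rfl
    unfold Subgroup.relIndex
    rw [hker, Subgroup.index_ker, MonoidHom.range_eq_top.mpr hsurj]
    simp
  refine ⟨K', hK'lt, ⟨gd.a + 1, (Fin.snoc gd.g (co.k i0) : Fin (gd.a + 1) → G), R, θ, ?_, ?_, ?_,
    ?_, ?_, ?_, ?_⟩, hRr⟩
  · intro x
    refine ⟨gd.hA x, ?_⟩
    simp only [μ, co.α_ι, Pi.zero_apply, mul_zero, Finset.sum_const_zero]
  · rw [← Subgroup.relIndex_mul_index hK'K, hrel, gd.hindex, pow_succ, mul_comm]
  · intro j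
    exact hZmono K' K p hK'K (hθZ j)
  · exact hcol1 _ hθ
  · exact rowMod_snoc D (genF b) gd.g K K' hK'K gd.φ θ hmR hθφ co lam (fun x hx => hx.2)
      (co.k i0) (co.hk i0) hμh (fun x hx j => hexp (genF b) x hx _ (hθZ j)) gd.hrow hkerξ
  · intro v hv x hx
    have hv' := hcol2 v hv
    have hxK : x ∈ K := gd.hstab v (hcol3 v hv') hx
    refine ⟨hxK, ?_⟩
    have h1 := hkerv v hv' 0 (co.α x) (fun j => by
      have h2 := hexp v x hxK (θ j) (hθZ j)
      have h3 := hstabv (ZMod p) v x hx (θ j)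
      rw [h3] at h2
      simp only [Pi.zero_apply, zero_mul, Finset.sum_const_zero, zero_add]
      rw [h2]
      rfl)
    simpa using h1
  · intro v hv
    have hv' := hcol2 v hv
    exact rowMod_snoc D v gd.g K K' hK'K gd.φ θ hmR hθφ co lam (fun x hx => hx.2)
      (co.k i0) (co.hk i0) hμh (fun x hx j => hexp v x hx _ (hθZ j)) (gd.hrowv v (hcol3 v hv'))
      (hkerv v hv')

end H2.EA
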