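import Pool.Agent.H2.EA.Defs

/-!
# EA: the statements of all parts.  Each part proves `theorem t_XX (deps) : S_XX`.
-/

set_option autoImplicit false

open Finset Module

namespace H2.EA

/-- LOG1 (additivity of the truncated log).  `(1+x)(1+y) = 1 + (x + y + x y)`.
Proof: in `F_p[X,Y]` put `L(X) = ∑_{i=1}^{p-1} (-1)^(i+1) X^i/i`, `Φ = L(X+Y+XY) - L(X) - L(Y)`.
`(1+X) L'(X) = 1 - (-X)^(p-1)`, so `(1+X) ∂_X Φ = (-X)^(p-1) - (-(X+Y+XY))^(p-1)` has only monomials
of total degree `≥ p-1`, hence so has `∂_X Φ` (1+X is a unit of power series), so the coefficient of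
`X^i Y^j`, `0<i`, `i+j<p`, in `Φ` vanishes (times `i`, `0<i<p`), and `Φ(0,Y)=0`. Apply to `x,y`. -/
def S_LOG1 : Prop := ∀ (p : ℕ) [Fact p.Prime] (M : Type) [AddCommGroup M] [Module (ZMod p) M]
  (x y : Module.End (ZMod p) M), Commute x y → ∀ a : M,
  (∀ i j : ℕ, p ≤ i + j → (x ^ i * y ^ j) a = 0) →
  tl p (x + y + x * y) a = tl p x a + tl p y a

/-- LOG2. `x a = tl x a - (higher powers)`: show `v (x^i a) = 0` for `i ≥ 1` by downward induction on
`i ≤ p`, applying the hypothesis to `x^(i-1) a ∈ B`. -/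
def S_LOG2 : Prop := ∀ (p : ℕ) [Fact p.Prime] (M : Type) [AddCommGroup M] [Module (ZMod p) M]
  (E : Type) [AddCommGroup E] [Module (ZMod p) E] (x : Module.End (ZMod p) M)
  (B : Submodule (ZMod p) M), (∀ a ∈ B, x a ∈ B) → (∀ a ∈ B, (x ^ p) a = 0) →
  ∀ v : M →ₗ[ZMod p] E, (∀ a ∈ B, v (tl p x a) = 0) → ∀ a ∈ B, v (x a) = 0

/-- ZF: facts on `Z K n` that need no finiteness (commuting operators; `lg`, `lq` are polynomials in
`N g`).  (5) by induction on `i + j`; (6) from LOG1: `N (x y) = N x + N y + N x * N y`. -/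
def S_ZF : Prop := ∀ (p : ℕ) [Fact p.Prime] (G A : Type) [Group G] [AddCommGroup A]
  [Module (ZMod p) A] (D : Dat p G A),
  (∀ (K : Subgroup G) (n : ℕ), D.Z K n ≤ D.Z K (n + 1)) ∧
  (∀ (K K' : Subgroup G) (n : ℕ), K ≤ K' → D.Z K' n ≤ D.Z K n) ∧
  (∀ (K : Subgroup G) (n : ℕ) (g : G), ∀ a ∈ D.Z K n,
    D.act g a ∈ D.Z K n ∧ D.N g a ∈ D.Z K n ∧ D.lg g a ∈ D.Z K n ∧ D.lq g a ∈ D.Z K n) ∧
  (∀ (K : Subgroup G) (n : ℕ), ∀ k ∈ K, ∀ a ∈ D.Z K (n + 1), D.N k a ∈ D.Z K n ∧ D.lg k a ∈ D.Z K n) ∧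
  (∀ (K : Subgroup G) (n i j : ℕ), ∀ x ∈ K, ∀ y ∈ K, ∀ a ∈ D.Z K n, n ≤ i + j →
    ((D.N x) ^ i * (D.N y) ^ j) a = 0) ∧
  (∀ (K : Subgroup G), ∀ x ∈ K, ∀ y ∈ K, ∀ a ∈ D.Z K p, D.lg (x * y) a = D.lg x a + D.lg y a) ∧
  (∀ (E : Type) [AddCommGroup E] [Module (ZMod p) E] (v : A →ₗ[ZMod p] E) (x : G),
    (∀ a, v (D.act x a) = v a) → ∀ a, v (D.lg x a) = 0)

/-- ZG: the operators `N g` of a finite p-group on `A` are jointly nilpotent, so the series `Z K n`
is strictly increasing until it reaches `⊤`.  (If `Z K n = Z K (n+1)` then `Z K m = Z K n` for all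
`m ≥ n`; and some `Z K m = ⊤`: `K` acts on the finite p-group `A / Z K n` and a non-zero such quotient
has a non-zero fixed vector, which lies in `Z K (n+1)`.) `A` is finite because `ι` is injective. -/
def S_ZG : Prop := ∀ (p : ℕ) [Fact p.Prime] (G A : Type) [Group G] [Finite G] [AddCommGroup A]
  [Module (ZMod p) A] (D : Dat p G A), IsPGroup p G → ∀ (K : Subgroup G),
  (∃ n, D.Z K n = ⊤) ∧ (∀ n, D.Z K n ≠ ⊤ → D.Z K n ≠ D.Z K (n + 1))

/-- CH (crossed homomorphisms).  Let `H` act on `M × ZMod p` by `x (m,t) = (x m + t • f x, t)`;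
by `hs` these operators commute, and products of `p` of the operators `x - 1` vanish;
`tl p (x - 1) (0,1) = (tq p (act x - 1) (f x), 0)`; apply LOG1. -/
def S_CH : Prop := ∀ (p : ℕ) [Fact p.Prime] (H : Type) [Group H] (M : Type) [AddCommGroup M]
  [Module (ZMod p) M] (act : H →* Module.End (ZMod p) M),
  (∀ x y, Commute (act x) (act y)) →
  (∀ x y (i j : ℕ), p - 1 ≤ i + j → (act x - 1) ^ i * (act y - 1) ^ j = 0) →
  ∀ f : H → M, (∀ x y, f (x * y) = f x + act x (f y)) →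
  (∀ x y, (act y - 1) (f x) = (act x - 1) (f y)) →
  ∀ x y, tq p (act (x * y) - 1) (f (x * y)) = tq p (act x - 1) (f x) + tq p (act y - 1) (f y)

/-- HOM: a homomorphism from `K` to an `F_p`-space killing `A` is determined by the coordinates.
(`x * (∏ k_i^(α_i x))⁻¹` has coordinates 0, so it is `y^p * ι a`, killed by `f`.) -/
def S_HOM : Prop := ∀ (p : ℕ) [Fact p.Prime] (G A : Type) [Group G] [AddCommGroup A]
  [Module (ZMod p) A] (D : Dat p G A) (K : Subgroup G) (n : ℕ) (co : Coord D K n),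
  (∀ x, D.ι x ∈ K) →
  (∀ (M : Type) [AddCommGroup M] [Module (ZMod p) M] (f : G → M),
    (∀ x ∈ K, ∀ y ∈ K, f (x * y) = f x + f y) → (∀ a, f (D.ι a) = 0) →
    ∀ x ∈ K, f x = ∑ i, co.α x i • f (co.k i)) ∧
  (∀ s : Fin n → ZMod p, ∃ x ∈ K, co.α x = s)

/-- COORD: coordinates exist: `K / (K^p A)` is a finite elementary abelian group (`K/A` is abelian),
choose a basis and preimages. -/
def S_COORD : Prop := ∀ (p : ℕ) [Fact p.Prime] (G A : Type) [Group G] [Finite G] [AddCommGroup A]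
  [Module (ZMod p) A] (D : Dat p G A) (K : Subgroup G), (∀ x, D.ι x ∈ K) →
  ∃ n, Nonempty (Coord D K n)

/-- LIN (bilinearity of the commutator form).  See PLAN.md. Uses ZF, CH, HOM. -/
def S_LIN : Prop := ∀ (p : ℕ) [Fact p.Prime] (G A : Type) [Group G] [AddCommGroup A]
  [Module (ZMod p) A] (D : Dat p G A) (K : Subgroup G), (∀ x, D.ι x ∈ K) → D.Z K (p - 1) = ⊤ →
  ∀ (n : ℕ) (co : Coord D K n) (v : A →ₗ[ZMod p] ZMod p),
  ∀ x ∈ D.stabK K v, ∀ y ∈ D.stabK K v,
    v (D.c x y) = ∑ i, ∑ j, co.α x i * co.α y j * v (CC D co i j)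

/-- HZ: a non-zero homogeneous polynomial of degree `< p` does not vanish identically off the
hyperplane `∑ z i x i = 0`.  (Linear change of variables so that `z = e_0`; set `x_0 = 1`: the
dehomogenisation is non-zero of total degree `< p`.) -/
def S_HZ : Prop := ∀ (p : ℕ) [Fact p.Prime] (d e : ℕ) (Q : MvPolynomial (Fin d) (ZMod p)),
  Q.IsHomogeneous e → e < p → Q ≠ 0 → ∀ z : Fin d → ZMod p, z ≠ 0 →
  ∃ x : Fin d → ZMod p, (∑ i, z i * x i) ≠ 0 ∧ MvPolynomial.eval x Q ≠ 0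

/-- CRA (specialisation by Cramer's rule).  If the constant covector `lam` kills the generic left
kernel of `M` then it kills the left kernel of `M(x)` for every point `x` where the columns are
independent.  Proof: choose `R` rows `I` with `δ = det M_I`, `δ(x) ≠ 0`.  Over the field, `M` has
full column rank, so its left kernel's annihilator is the column space: `lam = M y`, and
`y = M_I⁻¹ lam_I`; so `δ • lam = M * adj(M_I) * lam_I`, an identity of polynomials; evaluate at `x`: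
`lam` is in the column space of `M(x)`. -/
def S_CRA : Prop := ∀ (p : ℕ) [Fact p.Prime] (d : ℕ) (J : Type) [Fintype J] [DecidableEq J] (R : ℕ)
  (M : Matrix J (Fin R) (MvPolynomial (Fin d) (ZMod p))) (lam : J → ZMod p),
  (∀ s : J → Fr p d, (∀ j, ∑ i, s i * algebraMap _ (Fr p d) (M i j) = 0) →
    ∑ i, algebraMap (ZMod p) (Fr p d) (lam i) * s i = 0) →
  ∀ x : Fin d → ZMod p,
  (∀ y : Fin R → ZMod p, (∀ i, ∑ j, MvPolynomial.eval x (M i j) * y j = 0) → y = 0) →
  ∀ s : J → ZMod p, (∀ j, ∑ i, s i * MvPolynomial.eval x (M i j) = 0) → ∑ i, lam i * s i = 0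

/-- SQ: the determinant of an alternating matrix of size `2e` with linear entries is a square `Q^2`,
`Q` homogeneous of degree `e`.  (Over the fraction field an alternating non-singular matrix is
congruent to the standard one, so `det = q^2`; `q` is integral over the integrally closed ring of
polynomials; the square root of a homogeneous polynomial is homogeneous.) -/
def S_SQ : Prop := ∀ (p : ℕ) [Fact p.Prime] (d e : ℕ) (J : Type) [Fintype J] [DecidableEq J]
  (S : Matrix J J (MvPolynomial (Fin d) (ZMod p))), Fintype.card J = 2 * e →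
  (∀ i, S i i = 0) → (∀ i j, S j i = - S i j) → (∀ i j, (S i j).IsHomogeneous 1) → S.det ≠ 0 →
  ∃ Q : MvPolynomial (Fin d) (ZMod p), Q.IsHomogeneous e ∧ Q ^ 2 = S.det

/-- ALT: principal minors of alternating matrices.  First choose `|C|` rows `I₀` in `P` with
`S[I₀, C]` non-singular, so the principal block on `I₀ ∪ C` is non-singular of size `2|C|`; then the
Schur complement on the remaining indices is alternating of rank `rank S - 2|C|`, and an alternating
matrix of rank `≥ 2t` has a non-singular principal submatrix of size `2t`. -/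
def S_ALT : Prop := ∀ (F : Type) [Field F] (P C : Type) [Fintype P] [DecidableEq P] [Fintype C]
  [DecidableEq C] (S : Matrix (P ⊕ C) (P ⊕ C) F),
  (∀ i, S i i = 0) → (∀ i j, S j i = - S i j) → (∀ i j, S (Sum.inr i) (Sum.inr j) = 0) →
  (∀ y : C → F, (∀ i : P, ∑ j, S (Sum.inl i) (Sum.inr j) * y j = 0) → y = 0) →
  ∀ e : ℕ, Fintype.card C ≤ e → 2 * e ≤ S.rank →
  ∃ f : Fin (2 * e - Fintype.card C) → P, Function.Injective f ∧
    (S.submatrix (Sum.map f id) (Sum.map f id)).det ≠ 0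

/-- SC: semicontinuity of the rank (minors). -/
def S_SC : Prop := ∀ (p : ℕ) [Fact p.Prime] (d : ℕ) (J L : Type) [Fintype J] [Fintype L]
  [DecidableEq J] [DecidableEq L] (M : Matrix J L (MvPolynomial (Fin d) (ZMod p)))
  (x : Fin d → ZMod p),
  (M.map (MvPolynomial.eval x)).rank ≤ (M.map (algebraMap _ (Fr p d))).rank

/-- the left kernel of a matrix -/
def leftKer {F J L : Type} [Field F] [Fintype J] (N : Matrix J L F) : Submodule F (J → F) where
  carrier := {s | ∀ l, ∑ i, s i * N i l = 0}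
  add_mem' := by
    intro s t hs ht l
    simp only [Set.mem_setOf_eq, Pi.add_apply, add_mul, Finset.sum_add_distrib] at *
    rw [hs l, ht l, add_zero]
  zero_mem' := by intro l; simp
  smul_mem' := by
    intro c s hs l
    simp only [Set.mem_setOf_eq, Pi.smul_apply, smul_eq_mul, mul_assoc, ← Finset.mul_sum] at *
    rw [hs l, mul_zero]

/-- the radical of the form `D0` on the left kernel of `N` -/
def radLK {F J L : Type} [Field F] [Fintype J] (D0 : Matrix J J F) (N : Matrix J L F) :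
    Submodule F (J → F) where
  carrier := {s | s ∈ leftKer N ∧ ∀ w ∈ leftKer N, ∑ i, ∑ j, w i * D0 i j * s j = 0}
  add_mem' := by
    rintro s t ⟨hs, hs'⟩ ⟨ht, ht'⟩
    refine ⟨add_mem hs ht, fun w hw => ?_⟩
    simp only [Pi.add_apply, mul_add, Finset.sum_add_distrib]
    rw [hs' w hw, ht' w hw, add_zero]
  zero_mem' := ⟨zero_mem _, fun w _ => by simp⟩
  smul_mem' := by
    rintro c s ⟨hs, hs'⟩
    refine ⟨Submodule.smul_mem _ _ hs, fun w hw => ?_⟩
    have : ∑ i, ∑ j, w i * D0 i j * (c • s) j = c * ∑ i, ∑ j, w i * D0 i j * s j := by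
      simp only [Pi.smul_apply, smul_eq_mul, Finset.mul_sum]
      refine Finset.sum_congr rfl fun i _ => Finset.sum_congr rfl fun j _ => by ring
    rw [this, hs' w hw, mul_zero]

/-- RKB: `ker [[D0, N], [-Nᵀ, 0]] = {(s,t) : s ∈ leftKer N, D0 s + N t = 0}` and `D0 s` is in the
column space of `N` iff it is orthogonal to `leftKer N`; given `s`, `t` is determined up to `ker N`. -/
def S_RKB : Prop := ∀ (F : Type) [Field F] (J L : Type) [Fintype J] [DecidableEq J] [Fintype L]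
  [DecidableEq L] (D0 : Matrix J J F) (N : Matrix J L F),
  (Matrix.fromBlocks D0 N (-N.transpose) 0).rank + finrank F (radLK D0 N)
    = Fintype.card J + N.rank

/-- LA3: comparison of ranks (from RKB).  `rank S = 2|P| - dim lk - dim Rad` for both matrices, and
the left kernels and radicals correspond to each other. -/
def S_LA3 : Prop := ∀ (F : Type) [Field F] (P1 P2 C C' : Type) [Fintype P1] [DecidableEq P1]
  [Fintype P2] [DecidableEq P2] [Fintype C] [DecidableEq C] [Fintype C'] [DecidableEq C']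
  (D0 : Matrix P2 P2 F) (M1 : Matrix P1 C F) (M2 : Matrix P2 C F) (N : Matrix P2 C' F),
  (∀ (s1 : P1 → F) (s2 : P2 → F),
    (∀ j, ∑ i, s1 i * M1 i j + ∑ i, s2 i * M2 i j = 0) → s1 = 0) →
  (∀ s2 : P2 → F, (∀ j, ∑ i, s2 i * M2 i j = 0) ↔ (∀ j, ∑ i, s2 i * N i j = 0)) →
  (Matrix.fromBlocks (Matrix.fromBlocks 0 0 0 D0) (Matrix.fromRows M1 M2)
      (-(Matrix.fromRows M1 M2).transpose) 0).rank
    = 2 * Fintype.card P1 + (Matrix.fromBlocks D0 N (-N.transpose) 0).rank

/-- RB (rank bound).  See PLAN.md (derivative trick and triangular family). Uses ZF, ZG. -/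
def S_RB : Prop := ∀ (p : ℕ) [Fact p.Prime] (G A : Type) [Group G] [Finite G] [AddCommGroup A]
  [Module (ZMod p) A] (D : Dat p G A), IsPGroup p G → ∀ (d : ℕ) (b : Basis (Fin d) (ZMod p) A)
  (K : Subgroup G), (∀ x, D.ι x ∈ K) → D.Z K (p - 1) ≠ ⊤ → ∀ (n : ℕ) (co : Coord D K n),
  (∀ lam : Fin n → ZMod p, lam ≠ 0 → ∃ s : Fin n → Fr p d,
    (∀ a ∈ D.Z K p, ∑ i, s i * genF b (D.lg (co.k i) a) = 0) ∧
    ∑ i, algebraMap (ZMod p) (Fr p d) (lam i) * s i ≠ 0) →
  ∃ ψ : Fin (p - 1) → A, (∀ j, ψ j ∈ D.Z K p) ∧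
    ∀ y : Fin (p - 1) → Fr p d, (∀ k ∈ K, ∑ j, y j * genF b (D.lg k (ψ j)) = 0) → y = 0

/-- EXT (exchange): extend `φ` by members of `ψ` to an independent family of size `t`. -/
def S_EXT : Prop := ∀ (p : ℕ) [Fact p.Prime] (G A : Type) [Group G] [AddCommGroup A]
  [Module (ZMod p) A] (D : Dat p G A) (E : Type) [Field E] [Algebra (ZMod p) E]
  (v : A →ₗ[ZMod p] E) (a : ℕ) (g : Fin a → G) (K : Subgroup G) (m r t : ℕ) (φ : Fin m → A)
  (ψ : Fin r → A), colInd D v g K φ → colInd D v g K ψ → ∀ (h : m ≤ t), t ≤ r →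
  ∃ θ : Fin t → A, (∀ j : Fin m, θ (Fin.castLE h j) = φ j) ∧
    (∀ j, θ j ∈ Set.range φ ∪ Set.range ψ) ∧ colInd D v g K θ

/-- STEP.  See PLAN.md. Uses ZF, ZG, HOM, COORD, EXT, CRA, RB. -/
def S_STEP : Prop := ∀ (p : ℕ) [Fact p.Prime] (G A : Type) [Group G] [Finite G] [AddCommGroup A]
  [Module (ZMod p) A] (D : Dat p G A), IsPGroup p G → ∀ (d : ℕ) (b : Basis (Fin d) (ZMod p) A)
  (K : Subgroup G) (gd : GD D b K) (r : ℕ), r + 2 ≤ p → RankLe D b gd.g K r →
  D.Z K (p - 1) = ⊤ ∨ ∃ K' : Subgroup G, K' < K ∧ ∃ gd' : GD D b K', gd'.m ≤ r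

/-- IDX1: `bsqK K v = p ^ rank T(v)`.  `K → F_p^n`, `x ↦ α x`, is onto; by LOG2 and additivity
`x ∈ K` is in `stab v` iff `α x` is in the left kernel `U` of `N = (v (lg (k i) (b l)))`
(as `Z K (p-1) = ⊤`), so `[K : K_v] = p^(n - dim U) = p^(rank N)`; by LIN the commutator form is
`(α x) CC(v) (α y)` on `K_v`, so `[K_v : Rad] = p^(dim U - dim Rad U)`; use RKB. Uses ZF, LOG2, HOM,
LIN, RKB. -/
def S_IDX1 : Prop := ∀ (p : ℕ) [Fact p.Prime] (G A : Type) [Group G] [Finite G] [AddCommGroup A]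
  [Module (ZMod p) A] (D : Dat p G A), IsPGroup p G → ∀ (d : ℕ) (b : Basis (Fin d) (ZMod p) A)
  (K : Subgroup G), (∀ x, D.ι x ∈ K) → D.Z K (p - 1) = ⊤ → ∀ (n : ℕ) (co : Coord D K n)
  (v : A →ₗ[ZMod p] ZMod p), D.bsqK K v = p ^ (TT D v co (fun l => b l)).rank

/-- IDX2: `b_G(v) ≤ [G:K] b_K(v)`, and equality if the inertia group is in `K`.
`[G:G_v][G_v:K_v] = [G:K][K:K_v]`, `[G_v:Rad_v] ≤ [G_v:K_v]^2 [K_v:Rad K_v]` (a bimultiplicative
alternating form restricted to a subgroup). -/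
def S_IDX2 : Prop := ∀ (p : ℕ) [Fact p.Prime] (G A : Type) [Group G] [Finite G] [AddCommGroup A]
  [Module (ZMod p) A] (D : Dat p G A) (K : Subgroup G) (v : A →ₗ[ZMod p] ZMod p),
  (∀ x, D.ι x ∈ K) →
  D.bsq v ≤ K.index ^ 2 * D.bsqK K v ∧ (D.stab v ≤ K → D.bsq v = K.index ^ 2 * D.bsqK K v)

/-- IDX4: `x ↦ (v (lg x (ψ j)))_j` is a homomorphism on `K` (as `ψ j ∈ Z K p`) killing `stabK K v`,
with image the span of the rows of the `k i`. Uses ZF, HOM. -/
def S_IDX4 : Prop := ∀ (p : ℕ) [Fact p.Prime] (G A : Type) [Group G] [Finite G] [AddCommGroup A]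
  [Module (ZMod p) A] (D : Dat p G A) (K : Subgroup G), (∀ x, D.ι x ∈ K) →
  ∀ (n : ℕ) (co : Coord D K n) (v : A →ₗ[ZMod p] ZMod p) (r : ℕ) (ψ : Fin r → A),
  (∀ j, ψ j ∈ D.Z K p) →
  p ^ (Matrix.of (fun (i : Fin n) (j : Fin r) => v (D.lg (co.k i) (ψ j)))).rank
    ≤ (D.stabK K v).relIndex K

/-- FL1.  See PLAN.md. Uses EXT, HZ, IDX4, COORD. -/
def S_FL1 : Prop := ∀ (p : ℕ) [Fact p.Prime] (G A : Type) [Group G] [Finite G] [AddCommGroup A]
  [Module (ZMod p) A] (D : Dat p G A), IsPGroup p G → ∀ (d : ℕ) (b : Basis (Fin d) (ZMod p) A)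
  (K : Subgroup G) (gd : GD D b K) (e : ℕ), 0 < e → e < p → gd.m ≤ e → ¬ RankLe D b gd.g K (e - 1) →
  ∀ z : A, z ≠ 0 → ∃ v : A →ₗ[ZMod p] ZMod p, v z ≠ 0 ∧ p ^ (2 * e) ≤ D.bsq v

/-- FL2.  See PLAN.md. Uses EXT, HZ, SQ, ALT, SC, LA3, IDX1, IDX2, COORD. -/
def S_FL2 : Prop := ∀ (p : ℕ) [Fact p.Prime] (G A : Type) [Group G] [Finite G] [AddCommGroup A]
  [Module (ZMod p) A] (D : Dat p G A), IsPGroup p G → ∀ (d : ℕ) (b : Basis (Fin d) (ZMod p) A)
  (K : Subgroup G) (gd : GD D b K) (e : ℕ), 0 < e → e < p → RankLe D b gd.g K (e - 1) →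
  D.Z K (p - 1) = ⊤ → ∀ v0 : A →ₗ[ZMod p] ZMod p, p ^ (2 * e) ≤ D.bsq v0 →
  ∀ z : A, z ≠ 0 → ∃ v : A →ₗ[ZMod p] ZMod p, v z ≠ 0 ∧ p ^ (2 * e) ≤ D.bsq v

/-- CORE: start with `K = ⊤`, `a = m = 0`; strong induction on `Nat.card K` with `gd.m ≤ e - 1`.
Uses STEP, FL1, FL2. (`e = 0`: any `v` with `v z ≠ 0`.) -/
def S_CORE : Prop := ∀ (p : ℕ) [Fact p.Prime] (G A : Type) [Group G] [Finite G] [AddCommGroup A]
  [Module (ZMod p) A] (D : Dat p G A), IsPGroup p G → ∀ e : ℕ, e < p →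
  ∀ v0 : A →ₗ[ZMod p] ZMod p, p ^ (2 * e) ≤ D.bsq v0 →
  ∀ z : A, z ≠ 0 → ∃ v : A →ₗ[ZMod p] ZMod p, v z ≠ 0 ∧ p ^ (2 * e) ≤ D.bsq v

/-- the `v`-eigenspace of `A` in a representation of `G` -/
noncomputable def eig {p : ℕ} [Fact p.Prime] {G A : Type} [Group G] [AddCommGroup A]
    [Module (ZMod p) A] (D : Dat p G A) {V : Type} [AddCommGroup V] [Module ℂ V]
    (ρ : Representation ℂ G V) (v : A →ₗ[ZMod p] ZMod p) : Submodule ℂ V where
  carrier := {w | ∀ a, ρ (D.ι a) w = (ZMod.stdAddChar (N := p) (v a) : ℂ) • w}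
  add_mem' := by
    intro s t hs ht a
    rw [map_add, hs a, ht a, smul_add]
  zero_mem' := by intro a; simp
  smul_mem' := by
    intro c s hs a
    rw [map_smul, hs a, smul_comm]

/-- RTA (Clifford): `V` is the direct sum of the eigenspaces `ρ(g) (eig v)`, `g ∈ G / stab v`, which
are the eigenspaces of the conjugate characters. -/
def S_RTA : Prop := ∀ (p : ℕ) [Fact p.Prime] (G A : Type) [Group G] [Finite G] [AddCommGroup A]
  [Module (ZMod p) A] (D : Dat p G A) (V : Type) [AddCommGroup V] [Module ℂ V]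
  [FiniteDimensional ℂ V] (ρ : Representation ℂ G V), ρ.IsIrreducible →
  ∀ v : A →ₗ[ZMod p] ZMod p, eig D ρ v ≠ ⊥ →
  finrank ℂ V = (D.stab v).index * finrank ℂ (eig D ρ v)

/-- RTB: on `W = eig v` the group `stab v` acts irreducibly, `ρ(g) ρ(h) = ψ(v (c g h)) ρ(h) ρ(g)`.
Elements of the radical commute with everything so they act as scalars (Schur); operators of
distinct cosets of the radical are linearly independent (they are eigenvectors with different
eigencharacters for conjugation) and all together they span `End W` (Burnside/Jacobson density), so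
`(dim W)^2 = [stab v : rad v]`. -/
def S_RTB : Prop := ∀ (p : ℕ) [Fact p.Prime] (G A : Type) [Group G] [Finite G] [AddCommGroup A]
  [Module (ZMod p) A] (D : Dat p G A) (V : Type) [AddCommGroup V] [Module ℂ V]
  [FiniteDimensional ℂ V] (ρ : Representation ℂ G V), ρ.IsIrreducible →
  ∀ v : A →ₗ[ZMod p] ZMod p, eig D ρ v ≠ ⊥ →
  (finrank ℂ (eig D ρ v)) ^ 2 = (D.radK ⊤ v).relIndex (D.stabK ⊤ v)

/-- RX: some irreducible representation lies over `v` (a constituent of the regular representation: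
`∑_a ψ(-v a) ι a` is a non-zero element of the `v`-eigenspace of the group algebra; Maschke). -/
def S_RX : Prop := ∀ (p : ℕ) [Fact p.Prime] (G A : Type) [Group G] [Finite G] [AddCommGroup A]
  [Module (ZMod p) A] (D : Dat p G A) (v : A →ₗ[ZMod p] ZMod p),
  ∃ (V : Type) (_ : AddCommGroup V) (_ : Module ℂ V) (_ : FiniteDimensional ℂ V)
    (ρ : Representation ℂ G V), ρ.IsIrreducible ∧ eig D ρ v ≠ ⊥

/-- RY: every irreducible representation lies over some `v` (commuting operators of order `p` have a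
common eigenvector; the eigenvalues are `p`-th roots of unity and define a functional). -/
def S_RY : Prop := ∀ (p : ℕ) [Fact p.Prime] (G A : Type) [Group G] [Finite G] [AddCommGroup A]
  [Module (ZMod p) A] (D : Dat p G A) (V : Type) [AddCommGroup V] [Module ℂ V]
  [FiniteDimensional ℂ V] (ρ : Representation ℂ G V), ρ.IsIrreducible →
  ∃ v : A →ₗ[ZMod p] ZMod p, eig D ρ v ≠ ⊥

/-- DAT: the data for `A = G'`. -/
def S_DAT : Prop := ∀ (p : ℕ) [Fact p.Prime] (G : Type) [Group G] [Finite G],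
  (∀ x ∈ commutator G, x ^ p = 1) → (∀ x ∈ commutator G, ∀ y ∈ commutator G, x * y = y * x) →
  ∃ (A : Type) (_ : AddCommGroup A) (_ : Module (ZMod p) A) (D : Dat p G A),
    Set.range D.ι = (commutator G : Set G)

/-- TW: linear characters separate `G / G'`. -/
def S_TW : Prop := ∀ (G : Type) [Group G] [Finite G] (z : G), z ∉ commutator G →
  ∃ τ : G →* ℂˣ, τ z ≠ 1

/-- FIN: the final theorem.  Let `N` be the common kernel of the irreducible representations of
degree `p^e`; if `N ≠ 1` it contains a central element `z` of order `p` (p-groups).  If `z ∉ G'`,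
twist one such representation by a linear character (TW).  If `z = ι a`: take a representation `ρ₀`
of degree `p^e`, `v₀` from RY, `(p^e)^2 = bsq v₀` (RTA, RTB), CORE gives `v` with `v a ≠ 0`,
`p^(2e) ≤ bsq v`; RX, RTA, RTB give an irreducible representation of degree `≥ p^e`, hence `= p^e`,
on which `z` acts non-trivially. -/
def S_FIN : Prop := ∀ (p : ℕ), p.Prime → ∀ (G : Type) [Group G] [Finite G], IsPGroup p G →
  (∀ x ∈ commutator G, x ^ p = 1) → (∀ x ∈ commutator G, ∀ y ∈ commutator G, x * y = y * x) →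
  ∀ e : ℕ,
  (∃ (V : Type) (_ : AddCommGroup V) (_ : Module ℂ V) (_ : FiniteDimensional ℂ V)
    (rho : Representation ℂ G V), rho.IsIrreducible ∧ Module.finrank ℂ V = p ^ e) →
  (∀ (V : Type) [AddCommGroup V] [Module ℂ V] [FiniteDimensional ℂ V]
    (rho : Representation ℂ G V), rho.IsIrreducible → Module.finrank ℂ V ≤ p ^ e) →
  e < p →
  ∀ g : G, (∀ (V : Type) [AddCommGroup V] [Module ℂ V] [FiniteDimensional ℂ V]
    (rho : Representation ℂ G V), rho.IsIrreducible → Module.finrank ℂ V = p ^ e → rho g = 1) →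
  g = 1

end H2.EA
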